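import Pool.Agent.Q253.Thin.QAP
import Pool.Agent.Q253.Thin.Fixed

/-!
# The dichotomy of Q253.Thin with both conclusions in the second case
-/

set_option autoImplicit false

namespace Q43.TR

open Finset Filter
open Pool.Agent.Y840.CT
open Pool.Agent.Q253.Thin

/-- The dichotomy, with the share of the good factors and with progressions of good factors. -/
theorem dich_both (r : ℕ) : ∃ t : ℕ, 1 ≤ t ∧ ∃ c : ℝ, 0 < c ∧ ∃ ρ : ℝ, 0 < ρ ∧
    ∀ (k : ℕ) (θ : ℝ), 0 < θ → ∃ D X₀ : ℕ, ∀ X : ℕ, X₀ ≤ X →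
    ∀ F : ℕ → Finset ℤ, ∀ h0 : ℤ, SysF r X F h0 → ∀ A B : ℕ, B ≤ X → θ * X ≤ (B : ℝ) - A →
      c * (((B : ℝ) - A) * VF F X) ≤ ((PF t X A B F h0).card : ℝ) ∨
      (ρ ≤ ∑ q ∈ Gd c t X A B F h0, (1 : ℝ) / q ∧
      ∃ q d : ℕ, 1 ≤ d ∧ (d : ℝ) ≤ Real.log X ^ D ∧ ∀ j < k, q + j * d ∈ Gd c t X A B F h0) := by
  classical
  obtain ⟨t, ht, c, hc, ρ, hρ, hd⟩ := dich r
  refine ⟨t, ht, c, hc, ρ, hρ, ?_⟩
  intro k θ hθ
  obtain ⟨X₁, h1⟩ := hd θ hθ
  obtain ⟨D, y₀, h2⟩ := primes_ap k (ρ / 72) (by positivity)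
  obtain ⟨X₂, h3⟩ := eventually_atTop.1 (ev_qap y₀)
  refine ⟨D, max (max X₁ X₂) 16, ?_⟩
  intro X hX F h0 S A B hBX hAB
  have hX1 : X₁ ≤ X := (le_max_left _ _).trans ((le_max_left _ _).trans hX)
  have hX2 : X₂ ≤ X := (le_max_right _ _).trans ((le_max_left _ _).trans hX)
  have hX3 : 16 ≤ X := (le_max_right _ _).trans hX
  rcases h1 X hX1 F h0 S A B hBX hAB with h | h
  · left
    exact h
  right
  refine ⟨h, ?_⟩
  have hXr : (16 : ℝ) ≤ X := by exact_mod_cast hX3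
  have hX0 : (0 : ℝ) < X := by linarith
  have hlX : 0 < Real.log X := Real.log_pos (by linarith)
  have h9 := h3 X hX2
  have hGd : ∀ q ∈ Gd c t X A B F h0, q.Prime ∧ (X : ℝ) ^ (1 / 9 : ℝ) < q ∧ q ^ 2 ≤ 2 * X := by
    intro q hq
    unfold Gd at hq
    rw [mem_filter] at hq
    exact ⟨hq.2.1.1, hq.2.1.2, hq.2.2.1⟩
  obtain ⟨i, hi, hcard, hne⟩ := block ρ (Gd c t X A B F h0) (Nat.log 2 X + 1) (by
    intro q hq
    obtain ⟨a1, a2, a3⟩ := hGd q hq
    refine ⟨a1, ?_, ?_⟩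
    · have : (4 : ℝ) < q := by
        have : (0 : ℝ) ≤ y₀ := Nat.cast_nonneg _
        linarith
      exact_mod_cast this
    · have h5 : q ≤ X := by
        by_contra hcon
        push Not at hcon
        nlinarith
      have := Nat.log_mono_right (b := 2) h5
      omega) hρ h
  obtain ⟨q0, hq0⟩ := hne
  rw [mem_filter] at hq0
  obtain ⟨b1, b2, b3⟩ := hGd q0 hq0.1
  set y := 2 ^ i with hy
  have hyX : (X : ℝ) ^ (1 / 9 : ℝ) ≤ 2 * y := by
    have : (q0 : ℝ) ≤ 2 * y := by exact_mod_cast hq0.2.2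
    linarith
  have hyy : y₀ + 4 ≤ y := by
    have : 2 * ((y₀ : ℝ) + 4) ≤ 2 * y := by linarith
    have h5 : ((y₀ : ℝ) + 4) ≤ y := by linarith
    exact_mod_cast h5
  have hyr : (4 : ℝ) ≤ y := by exact_mod_cast (by omega : 4 ≤ y)
  have hly : 0 < Real.log y := Real.log_pos (by linarith)
  have hyX2 : y ≤ X := by
    by_contra hcon
    push Not at hcon
    have : y < q0 := hq0.2.1
    nlinarith
  have hlyX : Real.log X ≤ 18 * Real.log y := by
    have h5 := Real.log_le_log (by positivity) hyX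
    rw [Real.log_rpow hX0] at h5
    have h6 : Real.log (2 * (y : ℝ)) ≤ 2 * Real.log y := by
      have : 2 * (y : ℝ) ≤ (y : ℝ) ^ 2 := by nlinarith
      have h7 := Real.log_le_log (by positivity) this
      rwa [Real.log_pow, Nat.cast_ofNat] at h7
    linarith
  have hL : ((Nat.log 2 X + 1 : ℕ) : ℝ) ≤ 4 * Real.log X := by
    have h5 : ((2 : ℝ)) ^ (Nat.log 2 X) ≤ X := by exact_mod_cast Nat.pow_log_le_self 2 (show X ≠ 0 by omega)
    have h6 := Real.log_le_log (by positivity) h5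
    rw [Real.log_pow] at h6
    have h7 := Real.log_two_gt_d9
    have h8 : (1 : ℝ) ≤ Real.log X := by
      have h10 : Real.log 16 ≤ Real.log X := Real.log_le_log (by norm_num) hXr
      have h11 : Real.log 16 = 4 * Real.log 2 := by
        rw [show (16 : ℝ) = 2 ^ 4 by norm_num, Real.log_pow]
        norm_num
      linarith
    push_cast
    have h12 : (0 : ℝ) ≤ (Nat.log 2 X : ℝ) := Nat.cast_nonneg _
    nlinarith
  obtain ⟨a, d, c1, c2, c3⟩ := h2 y (by omega) ((Gd c t X A B F h0).filter (fun q => y < q ∧ q ≤ 2 * y)) (by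
    intro p hp
    rw [mem_filter] at hp
    exact ⟨(hGd p hp.1).1, hp.2⟩) (by
    refine le_trans ?_ hcard
    have hL0 : (0 : ℝ) < ((Nat.log 2 X + 1 : ℕ) : ℝ) := by positivity
    have h5 : ((Nat.log 2 X + 1 : ℕ) : ℝ) ≤ 72 * Real.log y := by linarith
    have h6 : (y : ℝ) / (72 * Real.log y) ≤ y / ((Nat.log 2 X + 1 : ℕ) : ℝ) :=
      div_le_div_of_nonneg_left (by linarith) hL0 h5
    have h7 := mul_le_mul_of_nonneg_left h6 hρ.le
    have h8 : ρ / 72 * ((y : ℝ) / Real.log y) = ρ * (y / (72 * Real.log y)) := by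
      field_simp
    rw [h8]
    refine h7.trans (le_of_eq ?_)
    rw [hy]
    push_cast
    rfl)
  refine ⟨a, d, c1, c2.trans ?_, fun j hj => (mem_filter.1 (c3 j hj)).1⟩
  apply pow_le_pow_left₀ hly.le
  exact Real.log_le_log (by linarith) (by exact_mod_cast hyX2)

end Q43.TR
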